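import Mathlib
import Pool.Agent.Helper42_Paneitz.Main

set_option autoImplicit false

namespace Pool.Agent.Helper54FLX.UniformClosure

open Pool.Agent.Helper42_Paneitz

/-- **Uniform closure of the set of prescribed Paneitz curvatures on `S^4`.**
A continuous function `Q` on `S^4` is a uniform limit of `Q`-curvatures of metrics pointwise
conformal to the round metric if and only if `Q` is nonnegative at some point. -/
theorem result (Q : C(S4, ℝ)) :
    Q ∈ closure {f : C(S4, ℝ) | IsPaneitzCurvature f} ↔ ∃ x : S4, 0 ≤ Q x :=
  closure_iff Q

end Pool.Agent.Helper54FLX.UniformClosure
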